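import Pool.Agent.H530.HzS
import Pool.Agent.H530.HzT

/-!
# The sup norm of the Möbius and the Liouville exponential sum over sifted sets

Remove from `[1, X]` for every prime `p ≤ y` an arbitrary set `Z p` of at most `k` (and less than `p`) residue classes, and
let `G` be the set of the remaining integers; for example, `G` may consist of the `n` for which the numbers
`n + h`, `h` in an admissible set, have no prime factor `≤ y`. For `y ^ K ≤ X`, `K ≥ A (k)` (`K` may grow with `X`), and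
all integers `b`, `|b| ≤ X (log X) ^ B`,

`sup_t |∑_{n ∈ G} λ (n + b) e (n t)| ≤ (2 ^ (-⌊K / A⌋) + (log X) ^ (-E)) |G|`,

and the same, up to `6 |G| / y`, for the Möbius function at `n + b` if the sieve removes the multiples of the primes
`p ≤ y` among the `n + b`. For every `q > 2` also the `L ^ q` norm is smaller than that of the sum
without `λ`.
-/

set_option autoImplicit false

namespace Pool.Agent.Results.MP_b6b996_nt.SupNormOnSiftedSets

open Finset

/-- for every prime `p` a set of at most `k` and less than `p` residue classes -/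
def SieveData (k : ℕ) (Z : ℕ → Finset ℕ) : Prop :=
  ∀ p : ℕ, p.Prime → Z p ⊆ range p ∧ (Z p).card ≤ k ∧ (Z p).card < p

open Classical in
/-- the `n`, `1 ≤ n ≤ X`, in none of the classes of `Z p` for the primes `p ≤ y` -/
noncomputable def sifted (Z : ℕ → Finset ℕ) (y X : ℕ) : Finset ℕ :=
  (Icc 1 X).filter (fun n => ∀ p : ℕ, p.Prime → p ≤ y → n % p ∉ Z p)

/-- the Liouville function at the integers -/
noncomputable def lam (m : ℤ) : ℝ := if m = 0 then 0 else (-1) ^ ArithmeticFunction.cardFactors m.natAbs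

/-- the Möbius function at the integers -/
noncomputable def mob (m : ℤ) : ℝ := (ArithmeticFunction.moebius m.natAbs : ℝ)

/-- the sieve removes the `n` for which `n + b` has a prime factor `≤ y` -/
def Removes (Z : ℕ → Finset ℕ) (b : ℤ) (y : ℕ) : Prop :=
  ∀ p : ℕ, p.Prime → p ≤ y → ∀ n : ℕ, (p : ℤ) ∣ n + b → n % p ∈ Z p

/-- the exponential sum over `S` with coefficients `f (n + b)` -/
noncomputable def expSum (f : ℤ → ℝ) (S : Finset ℕ) (b : ℤ) (t : ℝ) : ℂ :=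
  ∑ n ∈ S, (f (n + b) : ℂ) * Complex.exp (2 * Real.pi * Complex.I * (n * t : ℝ))

/-- the conditions of the system -/
def QQ (Z : ℕ → Finset ℕ) (p n : ℕ) : Prop := n % p ∈ Z p

open Pool.Agent.H530.Ha Pool.Agent.H373R2.T7 in
lemma sv {k : ℕ} {Z : ℕ → Finset ℕ} (h : SieveData k Z) : Sv k (QQ Z) := by
  classical
  have hn : ∀ p : ℕ, p.Prime → nuB (QQ Z) p = (Z p).card := by
    intro p hp
    unfold nuB
    congr 1
    ext r
    rw [mem_filter, mem_range]
    constructor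
    · rintro ⟨h1, h2⟩
      have h2' : r % p ∈ Z p := h2
      rwa [Nat.mod_eq_of_lt h1] at h2'
    · intro h1
      have h2 := mem_range.1 ((h p hp).1 h1)
      have h3 : r % p ∈ Z p := by rwa [Nat.mod_eq_of_lt h2]
      exact ⟨h2, h3⟩
  refine ⟨?_, ?_, ?_⟩
  · intro p n
    unfold QQ
    rw [Nat.mod_mod]
  · intro p hp
    rw [hn p hp]
    exact (h p hp).2.1
  · intro p hp
    rw [hn p hp]
    exact (h p hp).2.2

open Pool.Agent.H530.Ha Pool.Agent.H373R2.T7 in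
lemma sifted_eq (Z : ℕ → Finset ℕ) (y X : ℕ) : sifted Z y X = Pool.Agent.H530.Ha.RQ (QQ Z) X y := by
  classical
  ext n
  unfold sifted Pool.Agent.H530.Ha.RQ
  rw [mem_filter, mem_filter]
  apply and_congr Iff.rfl
  exact ⟨fun h p hp hq => h p (mem_pz.1 hp).2 (mem_pz.1 hp).1 hq, fun h p hp hpy hq => h p (mem_pz.2 ⟨hpy, hp⟩) hq⟩

lemma lam_eq (m : ℤ) : lam m = Pool.Agent.H530.Ha.lz m := by
  unfold lam
  split_ifs with h
  · rw [h, Pool.Agent.H530.Ha.lz_zero]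
  · unfold Pool.Agent.H530.Ha.lz
    rw [Pool.Agent.H530.Ha.la_eq (by omega)]

open Pool.Agent.H530.Hz in
lemma expSum_eq (S : Finset ℕ) (b : ℤ) (t : ℝ) :
    expSum lam S b t = FS S (fun n => ((Pool.Agent.H530.Ha.lz ((n : ℤ) + b) : ℝ) : ℂ)) t := by
  unfold expSum FS Pool.Agent.H807R2.Dav.ee
  apply sum_congr rfl
  intro n _
  rw [lam_eq]

lemma norm_exp_one (x : ℝ) : ‖Complex.exp (2 * Real.pi * Complex.I * (x : ℂ))‖ = 1 := by
  rw [Complex.norm_exp]
  simp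

/-- Möbius and Liouville -/
lemma mob_lam {m : ℤ} (h : ∀ p : ℕ, p.Prime → m ≠ 0 → ¬ ((p ^ 2 : ℕ) : ℤ) ∣ m) : mob m = lam m := by
  unfold mob lam
  by_cases hm : m = 0
  · rw [if_pos hm, hm]
    simp
  · rw [if_neg hm]
    have hs : Squarefree m.natAbs := by
      rw [Nat.squarefree_iff_prime_squarefree]
      intro p hp hd
      apply h p hp hm
      rw [Int.natCast_dvd, pow_two]
      exact hd
    rw [ArithmeticFunction.moebius_apply_of_squarefree hs]
    push_cast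
    rfl

lemma mob_le (m : ℤ) : |mob m - lam m| ≤ 1 := by
  unfold mob lam
  by_cases hm : m = 0
  · rw [if_pos hm, hm]
    simp
  · rw [if_neg hm]
    by_cases hs : Squarefree m.natAbs
    · rw [ArithmeticFunction.moebius_apply_of_squarefree hs]
      push_cast
      simp
    · rw [ArithmeticFunction.moebius_eq_zero_of_not_squarefree hs]
      simp

open Classical in
/-- the sup norm -/
theorem sup_norm (k : ℕ) (hk : 1 ≤ k) : ∃ c : ℝ, 0 < c ∧ ∃ A : ℕ, 1 ≤ A ∧ ∀ B E : ℕ, ∃ X₀ y₀ : ℕ, ∀ K : ℕ, A ≤ K →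
    ∀ Z : ℕ → Finset ℕ, SieveData k Z → ∀ X y : ℕ, X₀ ≤ X → y₀ ≤ y → y ^ K ≤ X →
      c * (X / Real.log X ^ k) ≤ (sifted Z y X).card ∧
      ∀ b : ℤ, |(b : ℝ)| ≤ X * Real.log X ^ B → ∀ t : ℝ,
        ‖expSum lam (sifted Z y X) b t‖ ≤ ((1 / 2 : ℝ) ^ (K / A) + 1 / Real.log X ^ E) * (sifted Z y X).card ∧
        (Removes Z b y → ‖expSum mob (sifted Z y X) b t‖ ≤
          ((1 / 2 : ℝ) ^ (K / A) + 6 / y + 1 / Real.log X ^ E) * (sifted Z y X).card) := by
  obtain ⟨c, hc, H1⟩ := Pool.Agent.H530.Ha.all_F k hk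
  obtain ⟨K1, hK1, H1⟩ := H1 1 one_pos
  obtain ⟨A0, hA0, H2⟩ := Pool.Agent.H530.Hz.all_ZU k hk
  obtain ⟨K3, hK3, H3⟩ := Pool.Agent.H530.Ha.sq_tailE k hk
  obtain ⟨A, hAL, hA0A, hA⟩ := Pool.Agent.H530.Hz.absorb A0 1 (K1 + K3 + 1) hA0 9 (by norm_num)
  refine ⟨c, hc, A, by omega, fun B E => ?_⟩
  obtain ⟨X1, y1, H1⟩ := H1 B
  obtain ⟨X2, y2, H2⟩ := H2 B (E + 1)
  obtain ⟨X3, y3, H3⟩ := H3 B (k + E + 2)
  obtain ⟨X4, hX4⟩ := Pool.Agent.H373R2.T7.ev_L' (max 2 (1 / c))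
  refine ⟨X1 + X2 + X3 + X4 + 2, y1 + y2 + y3 + 2 * k + 1, ?_⟩
  intro K hK Z hZ X y hX hy hyX
  have hs := sv hZ
  have r1 := (H1 _ hs X y (by omega) (by omega) ((Nat.pow_le_pow_right (by omega) (by omega)).trans hyX)).1
  have hL := hX4 X (by omega)
  have hL2 : 2 ≤ Real.log (X : ℝ) := (le_max_left _ _).trans hL
  have hLc : 1 / c ≤ Real.log (X : ℝ) := (le_max_right _ _).trans hL
  rw [← sifted_eq] at r1
  refine ⟨r1, ?_⟩
  intro b hb t
  have r2 := H2 K (by omega) _ hs X y (by omega) (by omega) hyX b hb t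
  have h9 := hA K (by omega)
  rw [pow_one] at h9
  obtain ⟨G, hG⟩ : ∃ G : ℝ, G = ((sifted Z y X).card : ℝ) := ⟨_, rfl⟩
  obtain ⟨L, hLe⟩ : ∃ L : ℝ, L = Real.log X := ⟨_, rfl⟩
  rw [← sifted_eq] at r2
  rw [← hG] at r1 r2 ⊢
  rw [← hLe] at r1 r2 hL2 hLc ⊢
  have hG0 : 0 ≤ G := by rw [hG]; exact Nat.cast_nonneg _
  have hL0 : 0 < L := by linarith
  have hsum : 2 * (1 / L ^ (E + 1)) ≤ 1 / L ^ E := by
    rw [pow_succ]
    have : 2 * (1 / (L ^ E * L)) = 2 / L * (1 / L ^ E) := by field_simp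
    rw [this]
    have h1 : 2 / L ≤ 1 := by rw [div_le_one hL0]; exact hL2
    have h2 : 0 ≤ 1 / L ^ E := by positivity
    nlinarith
  have hl0 : 0 ≤ 1 / L ^ (E + 1) := by positivity
  have r2' : ‖expSum lam (sifted Z y X) b t‖ ≤ ((1 / 2 : ℝ) ^ (K / A) + 1 / L ^ (E + 1)) * G := by
    rw [expSum_eq]
    refine r2.trans ?_
    apply mul_le_mul_of_nonneg_right _ hG0
    linarith
  constructor
  · refine r2'.trans ?_
    apply mul_le_mul_of_nonneg_right _ hG0
    linarith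
  · intro hrem
    have r3 := H3 _ hs X y (by omega) (by omega) ((Nat.pow_le_pow_right (by omega) (by omega)).trans hyX) y
      (by omega) (by omega) 1 b le_rfl (by
        intro p hp hp1
        exact absurd (Nat.dvd_one.1 hp1) hp.one_lt.ne') (by
        rw [Nat.cast_one, ← hLe]
        exact one_le_pow₀ (by linarith)) hb
    rw [← sifted_eq, ← hG, ← hLe] at r3
    -- the difference
    have hd : ‖expSum mob (sifted Z y X) b t - expSum lam (sifted Z y X) b t‖ ≤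
        (((sifted Z y X).filter (fun n : ℕ => ∃ p : ℕ, p.Prime ∧ y < p ∧ ((p ^ 2 : ℕ) : ℤ) ∣ (1 : ℕ) * n + b ∧
          ((1 : ℕ) : ℤ) * n + b ≠ 0)).card : ℝ) := by
      unfold expSum
      rw [← sum_sub_distrib]
      refine (norm_sum_le _ _).trans ?_
      rw [card_eq_sum_ones, Nat.cast_sum, sum_filter]
      apply sum_le_sum
      intro n hn
      rw [← sub_mul, norm_mul, norm_exp_one, mul_one, ← Complex.ofReal_sub, Complex.norm_real, Real.norm_eq_abs]
      split_ifs with h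
      · rw [Nat.cast_one]
        exact mob_le _
      · rw [mob_lam]
        · rw [sub_self, abs_zero]
        · intro p hp hne hd
          apply h
          refine ⟨p, hp, ?_, ?_, ?_⟩
          · by_contra hpy
            push Not at hpy
            have h1 : (p : ℤ) ∣ (n : ℤ) + b := by
              refine dvd_trans ?_ hd
              exact Int.natCast_dvd_natCast.2 (dvd_pow_self p two_ne_zero)
            have h2 := hrem p hp hpy n h1
            unfold sifted at hn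
            exact (mem_filter.1 hn).2 p hp hpy h2
          · rw [Nat.cast_one, one_mul]
            exact hd
          · rw [Nat.cast_one, one_mul]
            exact hne
    have h4 : (X : ℝ) / L ^ (k + E + 2) ≤ 1 / L ^ (E + 1) * G := by
      have e1 : (X : ℝ) / L ^ (k + E + 2) ≤ 1 / L ^ (E + 1) * (c * (X / L ^ k)) := by
        have e2 : 1 / L ^ (E + 1) * (c * (X / L ^ k)) = (L * c) * (X / L ^ (k + E + 2)) := by
          have e4 : L ^ (k + E + 2) = L ^ (E + 1) * L ^ k * L := by ring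
          rw [e4]
          field_simp
        rw [e2]
        have e3 : 0 ≤ (X : ℝ) / L ^ (k + E + 2) := by positivity
        rw [div_le_iff₀ hc] at hLc
        nlinarith
      refine e1.trans ?_
      exact mul_le_mul_of_nonneg_left r1 hl0
    have h5 : ‖expSum mob (sifted Z y X) b t‖ ≤ ‖expSum lam (sifted Z y X) b t‖ +
        ‖expSum mob (sifted Z y X) b t - expSum lam (sifted Z y X) b t‖ := by
      have := norm_add_le (expSum lam (sifted Z y X) b t) (expSum mob (sifted Z y X) b t - expSum lam (sifted Z y X) b t)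
      rwa [add_sub_cancel] at this
    have h6 : 2 * (1 / L ^ (E + 1)) * G ≤ 1 / L ^ E * G := mul_le_mul_of_nonneg_right hsum hG0
    have hd' := hd.trans r3
    have h7 : (6 : ℝ) / (y : ℝ) * G + X / L ^ (k + E + 2) ≤ 6 / (y : ℝ) * G + 1 / L ^ (E + 1) * G := by linarith
    calc ‖expSum mob (sifted Z y X) b t‖ ≤ ((1 / 2 : ℝ) ^ (K / A) + 1 / L ^ (E + 1)) * G +
          (6 / (y : ℝ) * G + 1 / L ^ (E + 1) * G) :=
          h5.trans (add_le_add r2' (hd'.trans h7))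
      _ = ((1 / 2 : ℝ) ^ (K / A) + 6 / y) * G + 2 * (1 / L ^ (E + 1)) * G := by ring
      _ ≤ ((1 / 2 : ℝ) ^ (K / A) + 6 / y) * G + 1 / L ^ E * G := by linarith
      _ = _ := by ring

open Pool.Agent.H530.Hz in
open Classical in
/-- the other norms -/
theorem lq_norm (k : ℕ) (hk : 1 ≤ k) (q : ℝ) (hq : 2 < q) : ∃ C : ℝ, 0 < C ∧ ∃ A : ℕ, 1 ≤ A ∧ ∀ B E : ℕ, ∃ X₀ y₀ : ℕ,
    ∀ K : ℕ, A ≤ K → ∀ Z : ℕ → Finset ℕ, SieveData k Z → ∀ X y : ℕ, X₀ ≤ X → y₀ ≤ y → y ^ K ≤ X →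
      ∀ b : ℤ, |(b : ℝ)| ≤ X * Real.log X ^ B →
        ∫ t in (0 : ℝ)..1, ‖expSum lam (sifted Z y X) b t‖ ^ q ≤
          C * ((1 / 2 : ℝ) ^ (K / A) + 1 / Real.log X ^ E) ^ ((q - 2) / 2) * (((sifted Z y X).card : ℝ) ^ q / X) := by
  obtain ⟨c, hc, A, hA, H1⟩ := sup_norm k hk
  obtain ⟨C, hC, K2, hK2, X2, y2, H2⟩ := restr_one k hk (p := (q + 2) / 2) (by linarith)
  refine ⟨C, hC, A * K2, Nat.mul_pos hA hK2, fun B E => ?_⟩
  obtain ⟨X1, y1, H1⟩ := H1 B E
  refine ⟨X1 + X2 + 2, y1 + y2 + 1, ?_⟩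
  intro K hK Z hZ X y hX hy hyX b hb
  have hAK : A ≤ K := (Nat.le_mul_of_pos_right A hK2).trans hK
  have hK2K : K2 ≤ K := (Nat.le_mul_of_pos_left K2 hA).trans hK
  obtain ⟨_, r1⟩ := H1 K hAK Z hZ X y (by omega) (by omega) hyX
  have r2 := H2 _ (sv hZ) X y (by omega) (by omega) ((Nat.pow_le_pow_right (by omega) hK2K).trans hyX)
    (fun n => ((Pool.Agent.H530.Ha.lz ((n : ℤ) + b) : ℝ) : ℂ)) (by
      intro n _
      rw [Complex.norm_real]
      exact lz_abs _)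
  rw [← sifted_eq] at r2
  obtain ⟨G, hG⟩ : ∃ G : ℝ, G = ((sifted Z y X).card : ℝ) := ⟨_, rfl⟩
  obtain ⟨d, hd⟩ : ∃ d : ℝ, d = (1 / 2 : ℝ) ^ (K / A) + 1 / Real.log X ^ E := ⟨_, rfl⟩
  obtain ⟨d', hd'⟩ : ∃ d' : ℝ, d' = (1 / 2 : ℝ) ^ (K / (A * K2)) + 1 / Real.log X ^ E := ⟨_, rfl⟩
  have hlog : 0 ≤ Real.log (X : ℝ) := Real.log_natCast_nonneg _
  have hd0 : 0 ≤ d := by rw [hd]; positivity
  have hdd : d ≤ d' := by
    have := half_mono (K := K) hA (Nat.le_mul_of_pos_right A hK2)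
    rw [hd, hd']
    linarith
  rw [← hG] at r2 ⊢
  rw [← hd']
  have hG0 : 0 ≤ G := by rw [hG]; exact Nat.cast_nonneg _
  have hF : ∀ t : ℝ, expSum lam (sifted Z y X) b t =
      FS (sifted Z y X) (fun n => ((Pool.Agent.H530.Ha.lz ((n : ℤ) + b) : ℝ) : ℂ)) t := fun t => expSum_eq _ _ _
  have hcont : Continuous (fun t : ℝ => expSum lam (sifted Z y X) b t) := by
    have : (fun t : ℝ => expSum lam (sifted Z y X) b t) =
      FS (sifted Z y X) (fun n => ((Pool.Agent.H530.Ha.lz ((n : ℤ) + b) : ℝ) : ℂ)) := funext hF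
    rw [this]
    exact FS_cont _ _
  have hpt : ∀ t : ℝ, ‖expSum lam (sifted Z y X) b t‖ ^ q ≤
      (d' * G) ^ ((q - 2) / 2) * ‖expSum lam (sifted Z y X) b t‖ ^ ((q + 2) / 2) := by
    intro t
    have h1 := (r1 b hb t).1
    rw [← hG, ← hd] at h1
    have e1 : q = (q - 2) / 2 + (q + 2) / 2 := by ring
    obtain ⟨u, hu⟩ : ∃ u : ℝ, u = ‖expSum lam (sifted Z y X) b t‖ := ⟨_, rfl⟩
    rw [← hu] at h1 ⊢
    have hu0 : 0 ≤ u := by rw [hu]; exact norm_nonneg _
    calc u ^ q = u ^ ((q - 2) / 2) * u ^ ((q + 2) / 2) := by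
          rw [← Real.rpow_add_of_nonneg hu0 (by linarith) (by linarith), ← e1]
      _ ≤ _ := by
        apply mul_le_mul_of_nonneg_right _ (Real.rpow_nonneg hu0 _)
        apply Real.rpow_le_rpow hu0 _ (by linarith)
        exact h1.trans (mul_le_mul_of_nonneg_right hdd hG0)
  calc ∫ t in (0 : ℝ)..1, ‖expSum lam (sifted Z y X) b t‖ ^ q ≤
        ∫ t in (0 : ℝ)..1, (d' * G) ^ ((q - 2) / 2) * ‖expSum lam (sifted Z y X) b t‖ ^ ((q + 2) / 2) := by
        apply intervalIntegral.integral_mono_on zero_le_one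
        · exact (hcont.norm.rpow_const fun _ => Or.inr (by linarith)).intervalIntegrable _ _
        · exact (continuous_const.mul (hcont.norm.rpow_const fun _ => Or.inr (by linarith))).intervalIntegrable _ _
        · intro t _
          exact hpt t
    _ = (d' * G) ^ ((q - 2) / 2) * ∫ t in (0 : ℝ)..1, ‖expSum lam (sifted Z y X) b t‖ ^ ((q + 2) / 2) :=
        intervalIntegral.integral_const_mul _ _
    _ ≤ (d' * G) ^ ((q - 2) / 2) * (C * (G ^ ((q + 2) / 2) / X)) := by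
        apply mul_le_mul_of_nonneg_left _ (Real.rpow_nonneg (mul_nonneg (hd0.trans hdd) hG0) _)
        simp only [hF]
        exact r2
    _ = _ := by
        rw [Real.mul_rpow (hd0.trans hdd) hG0]
        have e1 : G ^ q = G ^ ((q - 2) / 2) * G ^ ((q + 2) / 2) := by
          rw [← Real.rpow_add_of_nonneg hG0 (by linarith) (by linarith)]
          congr 1
          ring
        rw [e1]
        ring

/-- **The Möbius and the Liouville exponential sum over sifted sets.** -/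
theorem result :
    (∀ k : ℕ, 1 ≤ k → ∃ c : ℝ, 0 < c ∧ ∃ A : ℕ, 1 ≤ A ∧ ∀ B E : ℕ, ∃ X₀ y₀ : ℕ, ∀ K : ℕ, A ≤ K →
      ∀ Z : ℕ → Finset ℕ, SieveData k Z → ∀ X y : ℕ, X₀ ≤ X → y₀ ≤ y → y ^ K ≤ X →
        c * (X / Real.log X ^ k) ≤ (sifted Z y X).card ∧
        ∀ b : ℤ, |(b : ℝ)| ≤ X * Real.log X ^ B → ∀ t : ℝ,
          ‖expSum lam (sifted Z y X) b t‖ ≤ ((1 / 2 : ℝ) ^ (K / A) + 1 / Real.log X ^ E) * (sifted Z y X).card ∧
          (Removes Z b y → ‖expSum mob (sifted Z y X) b t‖ ≤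
            ((1 / 2 : ℝ) ^ (K / A) + 6 / y + 1 / Real.log X ^ E) * (sifted Z y X).card)) ∧
    (∀ k : ℕ, 1 ≤ k → ∀ q : ℝ, 2 < q → ∃ C : ℝ, 0 < C ∧ ∃ A : ℕ, 1 ≤ A ∧ ∀ B E : ℕ, ∃ X₀ y₀ : ℕ,
      ∀ K : ℕ, A ≤ K → ∀ Z : ℕ → Finset ℕ, SieveData k Z → ∀ X y : ℕ, X₀ ≤ X → y₀ ≤ y → y ^ K ≤ X →
        ∀ b : ℤ, |(b : ℝ)| ≤ X * Real.log X ^ B →
          ∫ t in (0 : ℝ)..1, ‖expSum lam (sifted Z y X) b t‖ ^ q ≤
            C * ((1 / 2 : ℝ) ^ (K / A) + 1 / Real.log X ^ E) ^ ((q - 2) / 2) *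
              (((sifted Z y X).card : ℝ) ^ q / X)) :=
  ⟨sup_norm, lq_norm⟩

end Pool.Agent.Results.MP_b6b996_nt.SupNormOnSiftedSets
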